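import Pool.Agent.Lib.MP_fb8c36_co.Final

open Pool.Agent Filter Topology

/-- For every `N ≥ 7` the cycle spectrum of the flip graph of the convex `N`-gon is the whole
interval `{4, 5, …, |T_N|}`; consequently `|S(G_N)| / |T_N| → 1` as `N → ∞`. -/
theorem Pool.Agent.Results.MP_fb8c36_co.AllCycles.result :
    (∀ N : ℕ, 7 ≤ N → Finite (MPfb8c36.Triangulation N) ∧
      MPfb8c36.cycleSpectrum N = Set.Icc 4 (Nat.card (MPfb8c36.Triangulation N))) ∧
    Tendsto (fun N : ℕ => ((MPfb8c36.cycleSpectrum N).ncard : ℝ) /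
      (Nat.card (MPfb8c36.Triangulation N) : ℝ)) atTop (𝓝 1) :=
  ⟨fun N hN => ⟨(MPfb8c36.spectrum_eq N hN).1, (MPfb8c36.spectrum_eq N hN).2.2⟩,
    MPfb8c36.ratio_tendsto⟩
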